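import Mathlib
import Pool.Agent.Y97.VC3.Main

/-!
# Very compressed loci in dimension three that are not components

Over an algebraically closed field of characteristic zero, for all `s ≥ 2` and `1 ≤ r ≤ s ^ 2 / 4`
the closure of the locus of the local algebras of length `d = binom(s + 2, 3) + r` and embedding
dimension three with Hilbert function `(1, 3, 6, ..., binom(s + 1, 2), r)` is not an irreducible
component of `Hilb_d(𝔸³)`.  The case `s = 7`, `r = 12` is `d = 96`.
-/

set_option autoImplicit false

open AlgebraicGeometry MvPolynomial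

universe u

namespace Pool.Agent.Results.MP_851c4e_ag.QuarterSquare

open Pool.Agent.Helper226

/-- The points of the locus `VC_{3, d}`, `d = binom(s + 2, 3) + r`: the local algebras
`k[x_1,x_2,x_3]/I`, supported at an arbitrary point `v` of affine `3`-space, with Hilbert function
`binom(i + 2, 2)` for `i < s`, `r` for `i = s` and `0` for `i > s`. -/
def IsVC {k : Type u} [Field k] (s r : ℕ) (I : Ideal (MvPolynomial (Fin 3) k)) : Prop :=
  ∃ v : Fin 3 → k, I.radical = pointIdeal v ∧
    ∀ i, hilbFn I (pointIdeal v) i = if i < s then (i + 2).choose 2 else if i = s then r else 0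

lemma isVC_iff {k : Type u} [Field k] (s r : ℕ) (hr : 1 ≤ r) (h4 : 4 * r ≤ s ^ 2)
    (I : Ideal (MvPolynomial (Fin 3) k)) :
    IsVC s r I ↔ IsVeryCompressed ((s + 2).choose 3 + r) I := by
  have hup := Pool.Agent.Y97.VC3.numeric2 s r h4
  constructor
  · rintro ⟨v, h1, h2⟩
    refine ⟨v, s, ?_, ?_, h1, ?_, ?_, ?_⟩
    · rw [show 3 + s - 1 = s + 2 by omega]
      omega
    · rw [show 3 + s = s + 3 by omega]
      exact hup
    · intro i hi
      rw [h2, if_pos hi]
      rfl
    · rw [h2, if_neg (by omega), if_pos rfl, show 3 + s - 1 = s + 2 by omega]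
      omega
    · intro i hi
      rw [h2, if_neg (by omega), if_neg (by omega)]
  · rintro ⟨v, s', hs1, hs2, hrad, h1, h2, h3⟩
    have hs : s' = s := by
      rcases lt_trichotomy s' s with h | h | h
      · have h5 : (3 + s').choose 3 ≤ (s + 2).choose 3 := Nat.choose_le_choose 3 (by omega)
        omega
      · exact h
      · have h5 : (s + 3).choose 3 ≤ (3 + s' - 1).choose 3 := Nat.choose_le_choose 3 (by omega)
        omega
    subst hs
    refine ⟨v, hrad, fun i => ?_⟩
    rcases lt_trichotomy i s' with h | h | h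
    · rw [h1 i h, if_pos h]
      rfl
    · subst h
      rw [h2, if_neg (by omega), if_pos rfl, show 3 + i - 1 = i + 2 by omega]
      omega
    · rw [h3 i h, if_neg (by omega), if_neg (by omega)]

/-- Let `k` be an algebraically closed field of characteristic zero, `s ≥ 2`, `1 ≤ r ≤ s ^ 2 / 4`
and `d = binom(s + 2, 3) + r`.  The closure of the (nonempty) very compressed locus `VC_{3, d}` is
not an irreducible component of the Hilbert scheme of `d` points of affine `3`-space.  For `s = 7`,
`r = 12` this is the length `d = 96`. -/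
theorem result (k : Type u) [Field k] [IsAlgClosed k] [CharZero k] :
    (∀ s r : ℕ, 2 ≤ s → 1 ≤ r → 4 * r ≤ s ^ 2 →
      ∃ 𝓗 : HilbertScheme k (MvPolynomial (Fin 3) k) ((s + 2).choose 3 + r),
        (𝓗.locus (IsVC s r)).Nonempty ∧
        closure (𝓗.locus (IsVC s r)) ∉ irreducibleComponents 𝓗.H) ∧
    ∃ 𝓗 : HilbertScheme k (MvPolynomial (Fin 3) k) 96,
      (𝓗.locus (IsVC 7 12)).Nonempty ∧
      closure (𝓗.locus (IsVC 7 12)) ∉ irreducibleComponents 𝓗.H := by
  have key : ∀ s r : ℕ, 2 ≤ s → 1 ≤ r → 4 * r ≤ s ^ 2 →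
      ∃ 𝓗 : HilbertScheme k (MvPolynomial (Fin 3) k) ((s + 2).choose 3 + r),
        (𝓗.locus (IsVC s r)).Nonempty ∧
        closure (𝓗.locus (IsVC s r)) ∉ irreducibleComponents 𝓗.H := by
    intro s r hs hr h4
    obtain ⟨h0, h1, -⟩ := Pool.Agent.Y97.VC3.main k s r hs hr h4
    have hvc : (IsVC s r : Ideal (MvPolynomial (Fin 3) k) → Prop) =
        IsVeryCompressed ((s + 2).choose 3 + r) := by
      funext I
      exact propext (isVC_iff s r hr h4 I)
    refine ⟨hilb k (MvPolynomial (Fin 3) k) ((s + 2).choose 3 + r), ?_⟩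
    rw [hvc]
    exact ⟨h0, h1⟩
  refine ⟨key, ?_⟩
  have h96 := key 7 12 (by norm_num) (by norm_num) (by norm_num)
  have e : Nat.choose (7 + 2) 3 + 12 = 96 := by decide
  rw [e] at h96
  exact h96

end Pool.Agent.Results.MP_851c4e_ag.QuarterSquare
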